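import Mathlib

/-!
# Bases with finitely many, but arbitrarily many near coincidences
-/

set_option autoImplicit false
open Filter Topology Set

namespace Pool.Agent.HP42.NC

/-- two linear recurrences with a common multiplier depending on the state -/
theorem exists_rec (A : ℕ → ℕ → ℕ → ℕ) (n0 m0 n1 m1 : ℕ) :
    ∃ N M : ℕ → ℕ, N 0 = n0 ∧ M 0 = m0 ∧ N 1 = n1 ∧ M 1 = m1 ∧
      (∀ j, N (j + 2) = A (j + 1) (N (j + 1)) (M (j + 1)) * N (j + 1) + N j) ∧
      (∀ j, M (j + 2) = A (j + 1) (N (j + 1)) (M (j + 1)) * M (j + 1) + M j) := by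
  let st : ℕ → (ℕ × ℕ) × (ℕ × ℕ) := fun j => Nat.rec ((n0, m0), (n1, m1))
    (fun i s => (s.2, (A (i + 1) s.2.1 s.2.2 * s.2.1 + s.1.1, A (i + 1) s.2.1 s.2.2 * s.2.2 + s.1.2))) j
  have hst : ∀ j, st (j + 1) = ((st j).2, (A (j + 1) (st j).2.1 (st j).2.2 * (st j).2.1 + (st j).1.1,
      A (j + 1) (st j).2.1 (st j).2.2 * (st j).2.2 + (st j).1.2)) := fun j => rfl
  refine ⟨fun j => (st j).1.1, fun j => (st j).1.2, rfl, rfl, rfl, rfl, fun j => ?_, fun j => ?_⟩
  · show (st (j + 1 + 1)).1.1 = A (j + 1) (st (j + 1)).1.1 (st (j + 1)).1.2 * (st (j + 1)).1.1 + (st j).1.1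
    rw [hst (j + 1), hst j]
  · show (st (j + 1 + 1)).1.2 = A (j + 1) (st (j + 1)).1.1 (st (j + 1)).1.2 * (st (j + 1)).1.2 + (st j).1.2
    rw [hst (j + 1), hst j]

/-- the data of a sequence of neighbouring fractions -/
structure Seq where
  N : ℕ → ℕ
  M : ℕ → ℕ
  A : ℕ → ℕ
  pos : ∀ j, 1 ≤ N j
  mpos : ∀ j, 1 ≤ M j
  apos : ∀ j, 1 ≤ A j
  recN : ∀ j, N (j + 2) = A (j + 1) * N (j + 1) + N j
  recM : ∀ j, M (j + 2) = A (j + 1) * M (j + 1) + M j
  uni : (M 1 : ℤ) * N 0 - M 0 * N 1 = 1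
  lt : N 0 < N 1

namespace Seq
variable (S : Seq)

theorem uni_all (j : ℕ) : (S.M (j + 1) : ℤ) * S.N j - S.M j * S.N (j + 1) = (-1) ^ j := by
  induction j with
  | zero => simpa using S.uni
  | succ j ih =>
    rw [S.recN, S.recM, pow_succ]
    push_cast
    linear_combination -ih

theorem lt_all (j : ℕ) : S.N j < S.N (j + 1) := by
  induction j with
  | zero => exact S.lt
  | succ j ih =>
    rw [S.recN]
    have h1 := S.apos (j + 1)
    have h2 := S.pos j
    nlinarith [Nat.le_mul_of_pos_left (S.N (j + 1)) h1]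

theorem strictMono : StrictMono S.N := strictMono_nat_of_lt_succ S.lt_all

theorem ge_self (j : ℕ) : j + 1 ≤ S.N j := by
  induction j with
  | zero => exact S.pos 0
  | succ j ih => have := S.lt_all j; omega

/-- the fractions -/
noncomputable def x (j : ℕ) : ℝ := (S.M j : ℝ) / S.N j

theorem npos (j : ℕ) : (0 : ℝ) < S.N j := by exact_mod_cast S.pos j

/-- the mediant property -/
theorem mem_uIcc (j : ℕ) : S.x (j + 2) ∈ uIcc (S.x j) (S.x (j + 1)) := by
  have h0 := S.npos j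
  have h1 := S.npos (j + 1)
  have hA : (1 : ℝ) ≤ S.A (j + 1) := by exact_mod_cast S.apos (j + 1)
  have h2 : (0 : ℝ) < S.A (j + 1) * S.N (j + 1) + S.N j := by positivity
  have e : S.x (j + 2) = (S.A (j + 1) * S.M (j + 1) + S.M j) / (S.A (j + 1) * S.N (j + 1) + S.N j) := by
    rw [x, S.recN, S.recM]; push_cast; rfl
  have e0 : (S.M j : ℝ) = S.x j * S.N j := by rw [x]; field_simp
  have e1 : (S.M (j + 1) : ℝ) = S.x (j + 1) * S.N (j + 1) := by rw [x]; field_simp
  rw [e, e0, e1, Set.mem_uIcc]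
  rcases le_total (S.x j) (S.x (j + 1)) with h | h
  · left
    constructor
    · rw [le_div_iff₀ h2]; nlinarith [mul_le_mul_of_nonneg_right h (mul_nonneg (by linarith : (0:ℝ) ≤ S.A (j+1)) h1.le)]
    · rw [div_le_iff₀ h2]; nlinarith [mul_le_mul_of_nonneg_right h h0.le]
  · right
    constructor
    · rw [le_div_iff₀ h2]; nlinarith [mul_le_mul_of_nonneg_right h h0.le]
    · rw [div_le_iff₀ h2]; nlinarith [mul_le_mul_of_nonneg_right h (mul_nonneg (by linarith : (0:ℝ) ≤ S.A (j+1)) h1.le)]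

/-- a point in all the intervals -/
theorem exists_point : ∃ s : ℝ, ∀ j, s ∈ uIcc (S.x j) (S.x (j + 1)) := by
  have h := IsCompact.nonempty_iInter_of_sequence_nonempty_isCompact_isClosed
    (fun j => uIcc (S.x j) (S.x (j + 1))) ?_ ?_ ?_ ?_
  · obtain ⟨s, hs⟩ := h
    exact ⟨s, fun j => mem_iInter.1 hs j⟩
  · intro j
    exact uIcc_subset_uIcc right_mem_uIcc (S.mem_uIcc j)
  · intro j
    exact nonempty_uIcc
  · exact isCompact_uIcc
  · intro j
    exact isCompact_uIcc.isClosed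

variable {S} {s : ℝ} (hs : ∀ j, s ∈ uIcc (S.x j) (S.x (j + 1)))
include hs

/-- the signs alternate -/
theorem sign (j : ℕ) : (S.N j * s - S.M j) * (S.N (j + 1) * s - S.M (j + 1)) ≤ 0 := by
  have h0 := S.npos j
  have h1 := S.npos (j + 1)
  have e0 : (S.N j : ℝ) * s - S.M j = S.N j * (s - S.x j) := by rw [x]; field_simp
  have e1 : (S.N (j + 1) : ℝ) * s - S.M (j + 1) = S.N (j + 1) * (s - S.x (j + 1)) := by rw [x]; field_simp
  rw [e0, e1]
  have h2 : (s - S.x j) * (s - S.x (j + 1)) ≤ 0 := by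
    rcases Set.mem_uIcc.1 (hs j) with h | h
    · exact mul_nonpos_of_nonneg_of_nonpos (by linarith) (by linarith)
    · exact mul_nonpos_of_nonpos_of_nonneg (by linarith) (by linarith)
  calc (S.N j : ℝ) * (s - S.x j) * (S.N (j + 1) * (s - S.x (j + 1))) =
        (S.N j * S.N (j + 1)) * ((s - S.x j) * (s - S.x (j + 1))) := by ring
    _ ≤ 0 := mul_nonpos_of_nonneg_of_nonpos (by positivity) h2

theorem abs_add (j : ℕ) : |S.N j * s - S.M j| * S.N (j + 1) + |S.N (j + 1) * s - S.M (j + 1)| * S.N j = 1 := by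
  have h0 := S.npos j
  have h1 := S.npos (j + 1)
  have hu := S.uni_all j
  have hu' : (S.M (j + 1) : ℝ) * S.N j - S.M j * S.N (j + 1) = (-1) ^ j := by exact_mod_cast hu
  have habs : |(S.M (j + 1) : ℝ) * S.N j - S.M j * S.N (j + 1)| = 1 := by rw [hu', abs_pow]; simp
  have hsg := sign hs j
  set u := (S.N j : ℝ) * s - S.M j with hu1
  set v := (S.N (j + 1) : ℝ) * s - S.M (j + 1) with hv1
  have e : (S.M (j + 1) : ℝ) * S.N j - S.M j * S.N (j + 1) = u * S.N (j + 1) - v * S.N j := by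
    rw [hu1, hv1]; ring
  rw [e] at habs
  rcases mul_nonpos_iff.1 hsg with ⟨ha, hb⟩ | ⟨ha, hb⟩
  · rw [abs_of_nonneg ha, abs_of_nonpos hb]
    rw [abs_of_nonneg (by nlinarith [mul_nonneg ha h1.le, mul_nonneg (neg_nonneg.2 hb) h0.le])] at habs
    linarith
  · rw [abs_of_nonpos ha, abs_of_nonneg hb]
    rw [abs_of_nonpos (by nlinarith [mul_nonneg (neg_nonneg.2 ha) h1.le, mul_nonneg hb h0.le])] at habs
    linarith

theorem upper (j : ℕ) : |S.N j * s - S.M j| ≤ 1 / S.N (j + 1) := by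
  have h := abs_add hs j
  rw [le_div_iff₀ (S.npos _)]
  have : 0 ≤ |S.N (j + 1) * s - S.M (j + 1)| * S.N j := by have := S.npos j; positivity
  linarith

theorem lower (j : ℕ) : 1 / (2 * S.N (j + 1)) ≤ |S.N j * s - S.M j| := by
  have h := abs_add hs j
  have h2 := upper hs (j + 1)
  have hN := S.npos (j + 1)
  have hN2 := S.npos (j + 2)
  have h0 := S.npos j
  have h3 : 2 * (S.N j : ℝ) ≤ S.N (j + 2) := by
    have h4 := S.recN j
    have h5 := S.lt_all j
    have h6 := S.apos (j + 1)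
    have : 2 * S.N j ≤ S.N (j + 2) := by
      rw [h4]
      nlinarith [Nat.le_mul_of_pos_left (S.N (j + 1)) h6]
    exact_mod_cast this
  have h4 : |S.N (j + 1) * s - S.M (j + 1)| * S.N j ≤ 1 / 2 := by
    calc |S.N (j + 1) * s - S.M (j + 1)| * S.N j ≤ 1 / S.N (j + 1 + 1) * S.N j := by gcongr
      _ ≤ 1 / 2 := by
        rw [one_div_mul_eq_div, div_le_div_iff₀ hN2 (by norm_num)]
        linarith
  rw [div_le_iff₀ (by positivity)]
  nlinarith

/-- best approximation -/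
theorem best (j n m : ℕ) (hn : 0 < n) (hnj : n < S.N (j + 1)) : |S.N j * s - S.M j| ≤ |n * s - m| := by
  have hu := S.uni_all j
  -- coordinates
  obtain ⟨e, he, he2⟩ : ∃ e : ℤ, (S.M (j + 1) : ℤ) * S.N j - S.M j * S.N (j + 1) = e ∧ e * e = 1 :=
    ⟨(-1) ^ j, hu, by rw [← pow_add, ← two_mul, pow_mul]; norm_num⟩
  set u : ℤ := e * (n * S.M (j + 1) - m * S.N (j + 1)) with hu1
  set v : ℤ := e * (m * S.N j - n * S.M j) with hv1
  have c1 : (n : ℤ) = u * S.N j + v * S.N (j + 1) := by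
    rw [hu1, hv1]
    linear_combination (-(n : ℤ)) * he2 - (n : ℤ) * e * he
  have c2 : (m : ℤ) = u * S.M j + v * S.M (j + 1) := by
    rw [hu1, hv1]
    linear_combination (-(m : ℤ)) * he2 - (m : ℤ) * e * he
  have hsg := sign hs j
  set a := (S.N j : ℝ) * s - S.M j with ha
  set b := (S.N (j + 1) : ℝ) * s - S.M (j + 1) with hb
  have c3 : (n : ℝ) * s - m = u * a + v * b := by
    have c1' : (n : ℝ) = u * S.N j + v * S.N (j + 1) := by exact_mod_cast c1
    have c2' : (m : ℝ) = u * S.M j + v * S.M (j + 1) := by exact_mod_cast c2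
    rw [c1', c2', ha, hb]; ring
  have hNj := S.pos j
  have hNj1 := S.pos (j + 1)
  -- the signs of `u` and `v`
  have huv : u * v ≤ 0 ∧ u ≠ 0 := by
    have h1 : (n : ℤ) < S.N (j + 1) := by exact_mod_cast hnj
    have h2 : (0 : ℤ) < n := by exact_mod_cast hn
    have h3 : (1 : ℤ) ≤ S.N j := by exact_mod_cast hNj
    have h4 : (1 : ℤ) ≤ S.N (j + 1) := by exact_mod_cast hNj1
    rcases lt_trichotomy v 0 with hv | hv | hv
    · have hu0 : 0 < u := by
        by_contra h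
        have h5 : u ≤ 0 := not_lt.1 h
        nlinarith [mul_nonneg (neg_nonneg.2 h5) (by linarith : (0:ℤ) ≤ S.N j), mul_pos (neg_pos.2 hv) (by linarith : (0:ℤ) < S.N (j+1))]
      exact ⟨mul_nonpos_of_nonneg_of_nonpos hu0.le hv.le, hu0.ne'⟩
    · have hu0 : u ≠ 0 := by
        intro h
        rw [h, hv] at c1
        simp at c1
        omega
      rw [hv, mul_zero]
      exact ⟨le_rfl, hu0⟩
    · have hu0 : u < 0 := by
        by_contra h
        have h5 : 0 ≤ u := not_lt.1 h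
        nlinarith [mul_nonneg h5 (by linarith : (0:ℤ) ≤ S.N j), mul_le_mul_of_nonneg_right (Int.add_one_le_iff.2 hv) (by linarith : (0:ℤ) ≤ S.N (j+1))]
      exact ⟨mul_nonpos_of_nonpos_of_nonneg hu0.le hv.le, hu0.ne⟩
  obtain ⟨huv1, huv2⟩ := huv
  have huv1' : (u : ℝ) * v ≤ 0 := by exact_mod_cast huv1
  have h6 : 0 ≤ (u * a) * (v * b) := by nlinarith [mul_nonneg_of_nonpos_of_nonpos huv1' hsg]
  have h7 : |u * a + v * b| = |u * a| + |v * b| := by
    rcases mul_nonneg_iff.1 h6 with ⟨h8, h9⟩ | ⟨h8, h9⟩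
    · rw [abs_of_nonneg h8, abs_of_nonneg h9, abs_of_nonneg (by linarith)]
    · rw [abs_of_nonpos h8, abs_of_nonpos h9, abs_of_nonpos (by linarith)]; ring
  rw [c3, h7]
  have h8 : (1 : ℝ) ≤ |(u : ℝ)| := by
    have := Int.one_le_abs huv2
    exact_mod_cast this
  have h9 : |a| ≤ |u * a| := by rw [abs_mul]; nlinarith [abs_nonneg a]
  have h10 := abs_nonneg (v * b)
  linarith

end Seq

end Pool.Agent.HP42.NC
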