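import Mathlib

/-!
# Generic bases: the Baire category argument
-/

set_option autoImplicit false
open Filter Topology Set

namespace Pool.Agent.HP42.NC

/-- for `a` in a comeagre set there are infinitely many very good coprime near misses -/
theorem generic (b : ℝ) (hb : 1 < b) (ψ : ℕ → ℝ) (hψ : ∀ n, 0 < ψ n) :
    ∃ G : Set ℝ, IsGδ G ∧ G ⊆ Ioi 1 ∧ Ioi 1 ⊆ closure G ∧
      ∀ a ∈ G, (∀ r s : ℤ, a ^ r = b ^ s → r = 0 ∧ s = 0) ∧
        {p : ℕ × ℕ | p.1.Coprime p.2 ∧ |a ^ p.1 - b ^ p.2| < ψ p.1}.Infinite := by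
  have hb0 : 0 < b := by linarith
  have hlb : 0 < Real.log b := Real.log_pos hb
  -- the open dense sets
  set U : ℕ → Set ℝ := fun k => ⋃ p ∈ {p : ℕ × ℕ | k ≤ p.1 ∧ p.1.Coprime p.2},
    {a : ℝ | |a ^ p.1 - b ^ p.2| < ψ p.1} with hU
  have hUo : ∀ k, IsOpen (U k) := by
    intro k
    refine isOpen_biUnion fun p _ => ?_
    exact isOpen_lt (by fun_prop) continuous_const
  set V : ℕ → Set ℝ := fun k => Iio 1 ∪ U k with hV
  have hVo : ∀ k, IsOpen (V k) := fun k => isOpen_Iio.union (hUo k)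
  have hVd : ∀ k, Dense (V k) := by
    intro k
    rw [dense_iff_inter_open]
    intro O hO hOne
    by_cases h1 : (O ∩ Iio 1).Nonempty
    · obtain ⟨x, hx1, hx2⟩ := h1
      exact ⟨x, hx1, Or.inl hx2⟩
    · -- `O` contains a point larger than one
      obtain ⟨x, hx⟩ := hOne
      have hx1 : 1 ≤ x := by
        by_contra h
        exact h1 ⟨x, hx, not_le.1 h⟩
      obtain ⟨e, he, hball⟩ := Metric.isOpen_iff.1 hO x hx
      -- an interval of exponents
      have hx0 : 0 < x := by linarith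
      set s1 : ℝ := Real.log x / Real.log b with hs1
      set s2 : ℝ := Real.log (x + e) / Real.log b with hs2
      have hs12 : s1 < s2 := by
        rw [hs1, hs2]
        exact div_lt_div_of_pos_right (Real.log_lt_log hx0 (by linarith)) hlb
      have hs1n : 0 ≤ s1 := div_nonneg (Real.log_nonneg hx1) hlb.le
      -- a prime `n` and `m` with `s1 < m / n < s2`
      obtain ⟨N, hN⟩ := exists_nat_gt (2 / (s2 - s1))
      obtain ⟨n, hn, hnp⟩ := Nat.exists_infinite_primes (max N k)
      have hnN : N ≤ n := (le_max_left _ _).trans hn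
      have hnk : k ≤ n := (le_max_right _ _).trans hn
      have hn0 : (0 : ℝ) < n := by exact_mod_cast hnp.pos
      have hlen : 2 < (s2 - s1) * n := by
        have h1 : (2 / (s2 - s1)) < n := hN.trans_le (by exact_mod_cast hnN)
        rw [div_lt_iff₀ (by linarith)] at h1
        linarith
      obtain ⟨m, hm1, hm2, hcop⟩ : ∃ m : ℕ, s1 * n < m ∧ (m : ℝ) < s2 * n ∧ n.Coprime m := by
        have hf0 : 0 ≤ s1 * n := by positivity
        have hf1 := Nat.floor_le hf0
        have hf2 := Nat.lt_floor_add_one (s1 * n)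
        by_cases hd : n ∣ ⌊s1 * n⌋₊ + 1
        · refine ⟨⌊s1 * n⌋₊ + 2, ?_, ?_, ?_⟩
          · push_cast; linarith
          · push_cast; linarith
          · rw [Nat.Prime.coprime_iff_not_dvd hnp]
            intro h
            have h2 := (Nat.dvd_sub h hd)
            have h3 : ⌊s1 * n⌋₊ + 2 - (⌊s1 * n⌋₊ + 1) = 1 := by omega
            rw [h3] at h2
            exact hnp.one_lt.ne' (Nat.dvd_one.1 h2)
        · refine ⟨⌊s1 * n⌋₊ + 1, ?_, ?_, ?_⟩
          · push_cast; linarith
          · push_cast; linarith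
          · rwa [Nat.Prime.coprime_iff_not_dvd hnp]
      -- the point
      set a : ℝ := Real.exp (Real.log b * (m / n)) with ha
      have hpow : a ^ n = b ^ m := by
        rw [ha, ← Real.exp_nat_mul, show (n : ℝ) * (Real.log b * (m / n)) = m * Real.log b by field_simp,
          Real.exp_nat_mul, Real.exp_log hb0]
      have ha1 : x < a := by
        rw [ha, ← Real.log_lt_iff_lt_exp hx0]
        have : s1 < m / n := by rw [lt_div_iff₀ hn0]; exact hm1
        rw [hs1, div_lt_iff₀ hlb] at this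
        linarith
      have ha2 : a < x + e := by
        rw [ha, ← Real.lt_log_iff_exp_lt (by linarith)]
        have : (m : ℝ) / n < s2 := by rw [div_lt_iff₀ hn0]; exact hm2
        rw [hs2, lt_div_iff₀ hlb] at this
        linarith
      refine ⟨a, hball ?_, Or.inr ?_⟩
      · rw [Metric.mem_ball, Real.dist_eq, abs_lt]
        constructor <;> linarith
      · rw [hU]
        simp only [mem_iUnion, exists_prop]
        refine ⟨(n, m), ⟨hnk, hcop⟩, ?_⟩
        simp only [mem_setOf_eq]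
        rw [hpow, sub_self, abs_zero]
        exact hψ n
  set W : ℚ → Set ℝ := fun q => {b ^ (q : ℝ)}ᶜ with hW
  have hWo : ∀ q, IsOpen (W q) := fun q => isOpen_compl_singleton
  have hWd : ∀ q, Dense (W q) := fun q => dense_compl_singleton _
  have hVG : IsGδ (⋂ k, V k) := IsGδ.iInter_of_isOpen hVo
  have hWG : IsGδ (⋂ q, W q) := IsGδ.iInter_of_isOpen hWo
  have hVD : Dense (⋂ k, V k) := dense_iInter_of_isOpen hVo hVd
  have hWD : Dense (⋂ q, W q) := dense_iInter_of_isOpen hWo hWd
  have hD : Dense ((⋂ k, V k) ∩ ⋂ q, W q) := hVD.inter_of_Gδ hVG hWG hWD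
  refine ⟨((⋂ k, V k) ∩ ⋂ q, W q) ∩ Ioi 1, (hVG.inter hWG).inter isOpen_Ioi.isGδ, inter_subset_right, ?_, ?_⟩
  · intro x hx
    rw [mem_closure_iff]
    intro O hO hxO
    obtain ⟨y, hy1, hy2⟩ := dense_iff_inter_open.1 hD (O ∩ Ioi 1) (hO.inter isOpen_Ioi) ⟨x, hxO, hx⟩
    exact ⟨y, hy1.1, hy2, hy1.2⟩
  · rintro a ⟨⟨haV, haW⟩, ha1⟩
    rw [mem_Ioi] at ha1
    have ha0 : 0 < a := by linarith
    refine ⟨?_, ?_⟩
    · intro r s hrs
      by_cases hr : r = 0
      · refine ⟨hr, ?_⟩
        rw [hr, zpow_zero] at hrs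
        by_contra hs
        have h1 : Real.log (b ^ s) = 0 := by rw [← hrs, Real.log_one]
        rw [Real.log_zpow] at h1
        rcases mul_eq_zero.1 h1 with h2 | h2
        · exact hs (by exact_mod_cast h2)
        · exact hlb.ne' h2
      · exfalso
        have h1 := mem_iInter.1 haW ((s : ℚ) / r)
        apply h1
        rw [mem_singleton_iff]
        have hr' : (r : ℝ) ≠ 0 := by exact_mod_cast hr
        have h2 : Real.log a = Real.log b * (s / r) := by
          have h3 : Real.log (a ^ r) = Real.log (b ^ s) := by rw [hrs]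
          rw [Real.log_zpow, Real.log_zpow] at h3
          field_simp
          linarith
        rw [Real.rpow_def_of_pos hb0]
        push_cast
        rw [← h2, Real.exp_log ha0]
    · intro hfin
      obtain ⟨K, hK⟩ := (hfin.image Prod.fst).bddAbove
      have h1 := mem_iInter.1 haV (K + 1)
      rcases h1 with h1 | h1
      · exact absurd ha1 (not_lt.2 (le_of_lt h1))
      · rw [hU] at h1
        simp only [mem_iUnion, exists_prop] at h1
        obtain ⟨p, ⟨hp1, hp2⟩, hp3⟩ := h1
        have h2 : p.1 ≤ K := hK (mem_image_of_mem _ ⟨hp2, hp3⟩)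
        omega

/-- arbitrarily small differences infinitely often -/
theorem infinite_le (a b : ℝ) (h : {p : ℕ × ℕ | p.1.Coprime p.2 ∧ |a ^ p.1 - b ^ p.2| < 1 / ((p.1 : ℝ) + 1)}.Infinite)
    (ha : 1 < a) (hb : 1 < b) (x : ℝ) (hx : 0 < x) : {p : ℕ × ℕ | |a ^ p.1 - b ^ p.2| ≤ x}.Infinite := by
  obtain ⟨N, hN⟩ := exists_nat_gt (1 / x)
  -- the pairs with small first member are finitely many
  have hfin : ({p : ℕ × ℕ | p.1.Coprime p.2 ∧ |a ^ p.1 - b ^ p.2| < 1 / ((p.1 : ℝ) + 1)} ∩ {p | p.1 ≤ N}).Finite := by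
    obtain ⟨M, hM⟩ := pow_unbounded_of_one_lt (a ^ N + 1) hb
    refine ((Set.finite_Iic N).prod (Set.finite_Iic M)).subset ?_
    rintro ⟨n, m⟩ ⟨⟨-, h2⟩, h3⟩
    simp only [Set.mem_setOf_eq] at h2 h3
    refine ⟨h3, ?_⟩
    rw [mem_Iic]
    by_contra hm
    have h4 : b ^ M ≤ b ^ m := pow_le_pow_right₀ hb.le (by omega)
    have h5 : a ^ n ≤ a ^ N := pow_le_pow_right₀ ha.le h3
    have h6 : (1 : ℝ) / (n + 1) ≤ 1 := by
      rw [div_le_one (by positivity)]
      have : (0 : ℝ) ≤ n := by positivity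
      linarith
    have h7 := (abs_lt.1 h2).1
    linarith
  refine (h.diff hfin).mono ?_
  rintro p ⟨hp1, hp2⟩
  have h1 : N < p.1 := by
    by_contra h
    exact hp2 ⟨hp1, not_lt.1 h⟩
  have h2 : (1 : ℝ) / (p.1 + 1) ≤ x := by
    rw [div_le_iff₀ (by positivity)]
    have h3 : (N : ℝ) < p.1 := by exact_mod_cast h1
    have h4 : 1 / x < p.1 + 1 := by linarith
    rw [div_lt_iff₀ hx] at h4
    linarith
  exact hp1.2.le.trans h2

end Pool.Agent.HP42.NC
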