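import Pool.Agent.HP42.NC.Fin

/-!
# Bases with finitely many, but arbitrarily many near coincidences: the construction
-/

set_option autoImplicit false
open Filter Topology Set

namespace Pool.Agent.HP42.NC

/-- two neighbouring fractions close to a given number -/
theorem exists_start (s0 η : ℝ) (hs0 : 0 < s0) (hη : 0 < η) : ∃ n0 m0 n1 m1 : ℕ, 1 ≤ n0 ∧ 1 ≤ m0 ∧ n0 < n1 ∧
    1 ≤ m1 ∧ (m1 : ℤ) * n0 - m0 * n1 = 1 ∧ |(m0 : ℝ) / n0 - s0| < η ∧ |(m1 : ℝ) / n1 - s0| < η := by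
  obtain ⟨N, hN⟩ := exists_nat_gt (4 / η)
  obtain ⟨n, hn, hnp⟩ := Nat.exists_infinite_primes N
  have hn0 : (0 : ℝ) < n := by exact_mod_cast hnp.pos
  have hnη : 4 < η * n := by
    have h1 : (4 / η) < n := hN.trans_le (by exact_mod_cast hn)
    rw [div_lt_iff₀ hη] at h1
    linarith
  obtain ⟨m, hm1, hm2, hcop⟩ : ∃ m : ℕ, s0 * n < m ∧ (m : ℝ) ≤ s0 * n + 2 ∧ n.Coprime m := by
    have hf0 : 0 ≤ s0 * n := by positivity
    have hf1 := Nat.floor_le hf0
    have hf2 := Nat.lt_floor_add_one (s0 * n)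
    by_cases hd : n ∣ ⌊s0 * n⌋₊ + 1
    · refine ⟨⌊s0 * n⌋₊ + 2, ?_, ?_, ?_⟩
      · push_cast; linarith
      · push_cast; linarith
      · rw [Nat.Prime.coprime_iff_not_dvd hnp]
        intro h
        have h2 := (Nat.dvd_sub h hd)
        have h3 : ⌊s0 * n⌋₊ + 2 - (⌊s0 * n⌋₊ + 1) = 1 := by omega
        rw [h3] at h2
        exact hnp.one_lt.ne' (Nat.dvd_one.1 h2)
    · refine ⟨⌊s0 * n⌋₊ + 1, ?_, ?_, ?_⟩
      · push_cast; linarith
      · push_cast; linarith
      · rwa [Nat.Prime.coprime_iff_not_dvd hnp]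
  have hm0 : 1 ≤ m := by
    have h1 : (0 : ℝ) < m := lt_of_le_of_lt (by positivity) hm1
    exact_mod_cast h1
  obtain ⟨x, y, hxy⟩ := Nat.isCoprime_iff_coprime.2 hcop
  -- `x * n + y * m = 1`
  set k : ℕ := x.natAbs + y.natAbs + 2 with hk
  have hx := Int.le_natAbs (a := -x)
  have hy := Int.le_natAbs (a := y)
  rw [Int.natAbs_neg] at hx
  have hn1 : (1 : ℤ) ≤ n := by exact_mod_cast hnp.pos
  have hm1' : (1 : ℤ) ≤ m := by exact_mod_cast hm0
  obtain ⟨X, hX⟩ : ∃ X : ℤ, X = x.natAbs := ⟨_, rfl⟩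
  obtain ⟨Y, hY⟩ : ∃ Y : ℤ, Y = y.natAbs := ⟨_, rfl⟩
  have hX0 : 0 ≤ X := by rw [hX]; positivity
  have hY0 : 0 ≤ Y := by rw [hY]; positivity
  have hkZ : (k : ℤ) = X + Y + 2 := by rw [hk, hX, hY]; push_cast; ring
  rw [← hX] at hx
  rw [← hY] at hy
  have hpos1 : 1 ≤ x + k * m := by
    rw [hkZ]
    nlinarith [mul_nonneg hX0 (by linarith : (0:ℤ) ≤ m - 1), mul_nonneg hY0 (by linarith : (0:ℤ) ≤ m - 1)]
  have hpos2 : (n : ℤ) < -y + k * n := by
    rw [hkZ]
    nlinarith [mul_nonneg hX0 (by linarith : (0:ℤ) ≤ n - 1), mul_nonneg hY0 (by linarith : (0:ℤ) ≤ n - 1)]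
  obtain ⟨m1, hm1e⟩ := Int.eq_ofNat_of_zero_le (show 0 ≤ x + k * m by linarith)
  obtain ⟨n1, hn1e⟩ := Int.eq_ofNat_of_zero_le (show 0 ≤ -y + k * n by linarith)
  have huni : (m1 : ℤ) * n - m * n1 = 1 := by
    have h1 : (m1 : ℤ) = x + k * m := hm1e.symm
    have h2 : (n1 : ℤ) = -y + k * n := hn1e.symm
    rw [h1, h2]
    linear_combination hxy
  have hn1' : n < n1 := by
    have : (n : ℤ) < n1 := by
      have h2 : (n1 : ℤ) = -y + k * n := hn1e.symm
      rw [h2]; exact hpos2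
    exact_mod_cast this
  have hm1'' : 1 ≤ m1 := by
    have : (1 : ℤ) ≤ m1 := by
      have h2 : (m1 : ℤ) = x + k * m := hm1e.symm
      rw [h2]; exact hpos1
    exact_mod_cast this
  have hd0 : |(m : ℝ) / n - s0| < η / 2 := by
    rw [abs_lt]
    constructor
    · have : s0 < m / n := by rw [lt_div_iff₀ hn0]; linarith
      linarith
    · have : (m : ℝ) / n < s0 + η / 2 := by rw [div_lt_iff₀ hn0]; nlinarith
      linarith
  have hn1r : (n : ℝ) < n1 := by exact_mod_cast hn1'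
  have hn1pos : (0 : ℝ) < n1 := hn0.trans hn1r
  have hn1ne : (n1 : ℝ) ≠ 0 := hn1pos.ne'
  have hd1 : |(m1 : ℝ) / n1 - m / n| < η / 2 := by
    have e : (m1 : ℝ) / n1 - m / n = 1 / (n1 * n) := by
      have h3 : (m1 : ℝ) * n - n1 * m = 1 := by
        have : (m1 : ℝ) * n - m * n1 = 1 := by exact_mod_cast huni
        linarith
      rw [div_sub_div _ _ hn1ne hn0.ne', h3]
    rw [e, abs_of_pos (by positivity), div_lt_div_iff₀ (by positivity) (by norm_num)]
    have h1 : (1 : ℝ) ≤ n := by exact_mod_cast hnp.pos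
    have h4 : η * n ≤ η * (n1 * n) := by
      apply mul_le_mul_of_nonneg_left _ hη.le
      nlinarith
    linarith
  refine ⟨n, m, n1, m1, hnp.pos, hm0, hn1', hm1'', huni, by linarith, ?_⟩
  calc |(m1 : ℝ) / n1 - s0| = |((m1 : ℝ) / n1 - m / n) + ((m : ℝ) / n - s0)| := by ring_nf
    _ ≤ _ := abs_add_le _ _
    _ < η := by linarith

/-- a slowly growing sequence -/
theorem exists_slow (F : ℕ → ℕ) : ∃ (γ Φ : ℕ → ℕ), (∀ k, F k < Φ k) ∧ (∀ j, 1 ≤ γ j ∧ γ j ≤ j + 1) ∧
    Tendsto γ atTop atTop ∧ ∀ k j, 1 ≤ k → j < Φ k → γ j ≤ k := by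
  set Φ : ℕ → ℕ := fun k => ∑ i ∈ Finset.range (k + 1), (F i + 1) with hΦ
  have hmono : Monotone Φ := by
    apply monotone_nat_of_le_succ
    intro k
    rw [hΦ]
    simp only
    rw [Finset.sum_range_succ _ (k + 1)]
    exact Nat.le_add_right _ _
  refine ⟨fun j => Nat.findGreatest (fun k => Φ k ≤ j) j + 1, Φ, ?_, ?_, ?_, ?_⟩
  · intro k
    have : F k + 1 ≤ Φ k := Finset.single_le_sum (f := fun i => F i + 1) (fun i _ => Nat.zero_le _)
      (Finset.mem_range.2 (Nat.lt_succ_self k))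
    omega
  · intro j
    have := Nat.findGreatest_le (P := fun k => Φ k ≤ j) j
    refine ⟨Nat.succ_le_succ (Nat.zero_le _), Nat.succ_le_succ this⟩
  · rw [tendsto_atTop]
    intro K
    filter_upwards [eventually_ge_atTop (max K (Φ K))] with j hj
    have h1 : K ≤ Nat.findGreatest (fun k => Φ k ≤ j) j :=
      Nat.le_findGreatest ((le_max_left _ _).trans hj) ((le_max_right _ _).trans hj)
    omega
  · intro k j hk hj
    by_cases h0 : Nat.findGreatest (fun k => Φ k ≤ j) j = 0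
    · simp only [h0]; omega
    · have h2 : Φ (Nat.findGreatest (fun k => Φ k ≤ j) j) ≤ j := Nat.findGreatest_of_ne_zero (P := fun k => Φ k ≤ j) (n := j) rfl h0
      have h3 : Nat.findGreatest (fun k => Φ k ≤ j) j < k := by
        by_contra h
        have := hmono (not_lt.1 h)
        omega
      simp only
      omega

theorem one_sub_exp (t : ℝ) : min |t| 1 / 2 ≤ |1 - Real.exp (-t)| := by
  rcases le_total 0 t with h | h
  · have h1 : Real.exp (-t) ≤ 1 / (1 + t) := by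
      rw [Real.exp_neg, one_div]
      apply inv_anti₀ (by linarith)
      have := Real.add_one_le_exp t
      linarith
    have h2 : t / (1 + t) ≤ 1 - Real.exp (-t) := by
      have : 1 - 1 / (1 + t) = t / (1 + t) := by field_simp; ring
      linarith
    have h3 : min |t| 1 / 2 ≤ t / (1 + t) := by
      rw [abs_of_nonneg h, div_le_div_iff₀ (by norm_num) (by linarith)]
      rcases le_total t 1 with h4 | h4
      · rw [min_eq_left h4]; nlinarith
      · rw [min_eq_right h4]; linarith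
    exact h3.trans (h2.trans (le_abs_self _))
  · have h1 := Real.add_one_le_exp (-t)
    have h2 : min |t| 1 ≤ -t := by rw [abs_of_nonpos h]; exact min_le_left _ _
    have h3 := neg_le_abs (1 - Real.exp (-t))
    have h4 : 0 ≤ min |t| 1 := le_min (abs_nonneg _) zero_le_one
    linarith

theorem finite_growth (b : ℝ) (hb : 1 < b) (F : ℕ → ℕ) (a0 ε : ℝ) (ha0 : 1 < a0) (hε : 0 < ε) :
    ∃ a : ℝ, 1 < a ∧ |a - a0| < ε ∧ (∀ x : ℝ, {p : ℕ × ℕ | |a ^ p.1 - b ^ p.2| ≤ x}.Finite) ∧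
      ∀ k : ℕ, 1 ≤ k → F k ≤ {p : ℕ × ℕ | p.1.Coprime p.2 ∧ |a ^ p.1 - b ^ p.2| ≤ k}.ncard := by
  have hb0 : 0 < b := by linarith
  set L := Real.log b with hL
  have hL0 : 0 < L := Real.log_pos hb
  set s0 := Real.log a0 / L with hs0
  have hs0p : 0 < s0 := div_pos (Real.log_pos ha0) hL0
  have hea0 : Real.exp (L * s0) = a0 := by
    rw [hs0, mul_div_cancel₀ _ hL0.ne', Real.exp_log (by linarith)]
  -- continuity
  obtain ⟨η', hη', hcont⟩ : ∃ η > 0, ∀ s : ℝ, |s - s0| < η → |Real.exp (L * s) - a0| < ε := by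
    have hc : ContinuousAt (fun s : ℝ => Real.exp (L * s)) s0 := by fun_prop
    rw [Metric.continuousAt_iff] at hc
    obtain ⟨η, h1, h2⟩ := hc ε hε
    refine ⟨η, h1, fun s hs => ?_⟩
    have := h2 (x := s) (by rwa [Real.dist_eq])
    rwa [Real.dist_eq, hea0] at this
  set η := min η' (s0 / 2) with hη
  have hη0 : 0 < η := lt_min hη' (by linarith)
  obtain ⟨n0, m0, n1, m1, hn0, hm0, hn01, hm1, huni, hd0, hd1⟩ := exists_start s0 η hs0p hη0
  obtain ⟨γ, Φ, hΦ, hγ, hγt, hγΦ⟩ := exists_slow F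
  set AA : ℕ → ℕ → ℕ → ℕ := fun j n m => ⌈2 * b ^ m * L / (γ j * n)⌉₊ + ⌈L⌉₊ + 1 with hAA
  obtain ⟨N, M, hN0, hM0, hN1, hM1, hrN, hrM⟩ := exists_rec AA n0 m0 n1 m1
  have hposN : ∀ j, 1 ≤ N j ∧ 1 ≤ N (j + 1) := by
    intro j
    induction j with
    | zero => exact ⟨by rw [hN0]; exact hn0, by rw [hN1]; omega⟩
    | succ j ih => exact ⟨ih.2, by rw [hrN]; omega⟩
  have hposM : ∀ j, 1 ≤ M j ∧ 1 ≤ M (j + 1) := by
    intro j
    induction j with
    | zero => exact ⟨by rw [hM0]; exact hm0, by rw [hM1]; exact hm1⟩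
    | succ j ih => exact ⟨ih.2, by rw [hrM]; omega⟩
  let S : Seq :=
    { N := N, M := M, A := fun j => AA j (N j) (M j), pos := fun j => (hposN j).1, mpos := fun j => (hposM j).1,
      apos := fun j => by simp only [hAA]; omega, recN := hrN, recM := hrM,
      uni := by rw [hN0, hM0, hN1, hM1]; exact huni, lt := by rw [hN0, hN1]; exact hn01 }
  have hSN : S.N = N := rfl
  have hSM : S.M = M := rfl
  obtain ⟨s, hs⟩ := S.exists_point
  -- all the fractions are in the first interval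
  have hsub : ∀ j, uIcc (S.x j) (S.x (j + 1)) ⊆ uIcc (S.x 0) (S.x 1) := by
    intro j
    induction j with
    | zero => exact subset_rfl
    | succ j ih => exact (uIcc_subset_uIcc right_mem_uIcc (S.mem_uIcc j)).trans ih
  have hin : ∀ y ∈ uIcc (S.x 0) (S.x 1), |y - s0| < η := by
    intro y hy
    have e0 : S.x 0 = (m0 : ℝ) / n0 := by rw [Seq.x, hSN, hSM, hN0, hM0]
    have e1 : S.x 1 = (m1 : ℝ) / n1 := by rw [Seq.x, hSN, hSM, hN1, hM1]
    rw [e0, e1] at hy
    rw [abs_lt] at hd0 hd1 ⊢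
    rcases Set.mem_uIcc.1 hy with h | h <;> constructor <;> linarith [h.1, h.2, hd0.1, hd0.2, hd1.1, hd1.2]
  have hsη := hin s (hs 0)
  have hxη : ∀ j, s0 / 2 ≤ S.x j := by
    intro j
    have h1 := hin (S.x j) (hsub j left_mem_uIcc)
    have h2 : η ≤ s0 / 2 := min_le_right _ _
    have := (abs_lt.1 h1).1
    linarith
  have hs_pos : 0 < s := by
    have h2 : η ≤ s0 / 2 := min_le_right _ _
    have := (abs_lt.1 hsη).1
    linarith
  set a := Real.exp (L * s) with ha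
  have ha1 : 1 < a := by rw [ha]; exact Real.one_lt_exp_iff.2 (by positivity)
  have hanear : |a - a0| < ε := hcont s (hsη.trans_le (min_le_left _ _))
  have hpa : ∀ n : ℕ, a ^ n = Real.exp (L * (n * s)) := by
    intro n
    rw [ha, ← Real.exp_nat_mul]
    congr 1; ring
  have hpb : ∀ m : ℕ, b ^ m = Real.exp (L * m) := by
    intro m
    rw [mul_comm, Real.exp_nat_mul, hL, Real.exp_log hb0]
  -- facts about the multipliers
  have hAl : ∀ j, L ≤ S.N (j + 2) := by
    intro j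
    have h1 := S.recN j
    have h2 : ⌈L⌉₊ ≤ S.A (j + 1) := by
      show ⌈L⌉₊ ≤ AA (j + 1) (N (j + 1)) (M (j + 1))
      simp only [hAA]; omega
    have h3 : ⌈L⌉₊ ≤ S.N (j + 2) := by
      rw [h1]
      have h4 := S.pos (j + 1)
      nlinarith [Nat.le_mul_of_pos_right (S.A (j + 1)) h4]
    exact (Nat.le_ceil L).trans (by exact_mod_cast h3)
  have hNlow : ∀ j, 2 * b ^ (S.M (j + 1)) * L / γ (j + 1) ≤ S.N (j + 2) := by
    intro j
    have h1 := S.recN j
    have hg : (0 : ℝ) < γ (j + 1) := by exact_mod_cast (hγ (j + 1)).1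
    have hn := S.npos (j + 1)
    have h2 : 2 * b ^ (S.M (j + 1)) * L / (γ (j + 1) * S.N (j + 1)) ≤ S.A (j + 1) := by
      have h3 := Nat.le_ceil (2 * b ^ (S.M (j + 1)) * L / (γ (j + 1) * S.N (j + 1)))
      have h4 : ⌈2 * b ^ (S.M (j + 1)) * L / (γ (j + 1) * S.N (j + 1))⌉₊ ≤ S.A (j + 1) := by
        show _ ≤ AA (j + 1) (N (j + 1)) (M (j + 1))
        simp only [hAA]
        have : ⌈2 * b ^ (S.M (j + 1)) * L / (γ (j + 1) * S.N (j + 1))⌉₊ =
          ⌈2 * b ^ (M (j + 1)) * L / (γ (j + 1) * N (j + 1))⌉₊ := rfl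
        omega
      exact h3.trans (by exact_mod_cast h4)
    have h5 : (S.N (j + 2) : ℝ) = S.A (j + 1) * S.N (j + 1) + S.N j := by exact_mod_cast h1
    rw [h5]
    have h6 : 2 * b ^ (S.M (j + 1)) * L / γ (j + 1) ≤ S.A (j + 1) * S.N (j + 1) := by
      rw [div_le_iff₀ (by positivity)] at h2
      rw [div_le_iff₀ hg]
      calc 2 * b ^ (S.M (j + 1)) * L ≤ S.A (j + 1) * (γ (j + 1) * S.N (j + 1)) := h2
        _ = _ := by ring
    have := S.npos j
    linarith
  have hNup : ∀ j, (S.N (j + 2) : ℝ) ≤ 2 * b ^ (S.M (j + 1)) * L / γ (j + 1) + (4 + L) * S.N (j + 1) := by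
    intro j
    have h1 := S.recN j
    have hg : (0 : ℝ) < γ (j + 1) := by exact_mod_cast (hγ (j + 1)).1
    have hn := S.npos (j + 1)
    have h2 : (S.A (j + 1) : ℝ) ≤ 2 * b ^ (S.M (j + 1)) * L / (γ (j + 1) * S.N (j + 1)) + (3 + L) := by
      have e : S.A (j + 1) = ⌈2 * b ^ (S.M (j + 1)) * L / (γ (j + 1) * S.N (j + 1))⌉₊ + ⌈L⌉₊ + 1 := rfl
      rw [e]
      push_cast
      have h3 := Nat.ceil_lt_add_one (show 0 ≤ 2 * b ^ (S.M (j + 1)) * L / (γ (j + 1) * S.N (j + 1)) by positivity)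
      have h4 := Nat.ceil_lt_add_one hL0.le
      linarith
    have h5 : (S.N (j + 2) : ℝ) = S.A (j + 1) * S.N (j + 1) + S.N j := by exact_mod_cast h1
    have h6 : (S.N j : ℝ) ≤ S.N (j + 1) := by exact_mod_cast (S.lt_all j).le
    rw [h5]
    calc (S.A (j + 1) : ℝ) * S.N (j + 1) + S.N j ≤
          (2 * b ^ (S.M (j + 1)) * L / (γ (j + 1) * S.N (j + 1)) + (3 + L)) * S.N (j + 1) + S.N (j + 1) := by
          gcongr
      _ = _ := by field_simp; ring
  -- the differences at the fractions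
  have htj : ∀ j, |L * (S.N (j + 1) * s - S.M (j + 1))| ≤ L / S.N (j + 2) := by
    intro j
    rw [abs_mul, abs_of_pos hL0, div_eq_mul_one_div]
    exact mul_le_mul_of_nonneg_left (Seq.upper hs (j + 1)) hL0.le
  have htj1 : ∀ j, |L * (S.N (j + 1) * s - S.M (j + 1))| ≤ 1 := by
    intro j
    refine (htj j).trans ?_
    rw [div_le_one (S.npos _)]
    exact hAl j
  have hup : ∀ j, |a ^ S.N (j + 1) - b ^ S.M (j + 1)| ≤ γ (j + 1) := by
    intro j
    set t := L * (S.N (j + 1) * s - S.M (j + 1)) with ht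
    have e : a ^ S.N (j + 1) - b ^ S.M (j + 1) = b ^ S.M (j + 1) * (Real.exp t - 1) := by
      rw [hpa, hpb, mul_sub, ← Real.exp_add, mul_one, ht]
      congr 2; ring
    rw [e, abs_mul, abs_of_pos (by positivity)]
    have h1 := Real.abs_exp_sub_one_le (htj1 j)
    have hg : (0 : ℝ) < γ (j + 1) := by exact_mod_cast (hγ (j + 1)).1
    have h2 := hNlow j
    rw [div_le_iff₀ hg] at h2
    calc b ^ S.M (j + 1) * |Real.exp t - 1| ≤ b ^ S.M (j + 1) * (2 * (L / S.N (j + 2))) := by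
          gcongr
          exact h1.trans (by linarith [htj j])
      _ ≤ γ (j + 1) := by
        rw [show b ^ S.M (j + 1) * (2 * (L / S.N (j + 2))) = 2 * b ^ S.M (j + 1) * L / S.N (j + 2) by ring,
          div_le_iff₀ (S.npos _)]
        linarith
  -- quadratic bound
  set C : ℝ := 2 / (L * (s0 / 2)) ^ 2 with hC
  have hC0 : 0 < C := by positivity
  have hquad : ∀ j, (S.N j : ℝ) ^ 2 ≤ C * b ^ S.M j := by
    intro j
    have h1 : 0 ≤ L * (s0 / 2) * S.N j := by have := S.npos j; positivity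
    have h2 := Real.quadratic_le_exp_of_nonneg h1
    have h3 : L * (s0 / 2) * S.N j ≤ L * S.M j := by
      have h4 := hxη j
      rw [Seq.x, le_div_iff₀ (S.npos j)] at h4
      nlinarith
    have h5 := Real.exp_le_exp.2 h3
    rw [← hpb] at h5
    have h6 : (L * (s0 / 2) * S.N j) ^ 2 / 2 ≤ b ^ S.M j := by linarith
    rw [hC]
    have h7 : (0 : ℝ) < (L * (s0 / 2)) ^ 2 := by positivity
    rw [div_mul_eq_mul_div, le_div_iff₀ h7]
    nlinarith
  set c : ℝ := L / (24 * L + 12 * (4 + L) * C) with hc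
  have hc0 : 0 < c := by positivity
  have hlow : ∀ j n m : ℕ, S.N (j + 1) ≤ n → n < S.N (j + 2) → c * γ (j + 1) ≤ |a ^ n - b ^ m| := by
    intro j n m hn1 hn2
    have hn0 : 0 < n := lt_of_lt_of_le (S.pos (j + 1)) hn1
    set t := L * (n * s - m) with ht
    have e : a ^ n - b ^ m = a ^ n * (1 - Real.exp (-t)) := by
      rw [hpa, hpb, mul_sub, ← Real.exp_add, mul_one, ht]
      congr 2; ring
    have hg : (0 : ℝ) < γ (j + 1) := by exact_mod_cast (hγ (j + 1)).1
    have hN2 := S.npos (j + 2)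
    have hbpos : 0 < b ^ S.M (j + 1) := by positivity
    -- size of `t`
    have h1 : L / (2 * S.N (j + 2)) ≤ |t| := by
      have h2 := Seq.best hs (j + 1) n m hn0 hn2
      have h3 := Seq.lower hs (j + 1)
      rw [ht, abs_mul, abs_of_pos hL0, div_eq_mul_one_div]
      exact mul_le_mul_of_nonneg_left (h3.trans h2) hL0.le
    have h2 : L / (2 * S.N (j + 2)) ≤ 1 := by
      rw [div_le_one (by positivity)]
      have := hAl j
      linarith
    have h3 : L / (4 * S.N (j + 2)) ≤ |1 - Real.exp (-t)| := by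
      refine le_trans ?_ (one_sub_exp t)
      have h4 : L / (2 * S.N (j + 2)) ≤ min |t| 1 := le_min h1 h2
      calc L / (4 * S.N (j + 2)) = L / (2 * S.N (j + 2)) / 2 := by rw [div_div]; congr 1; ring
        _ ≤ _ := by linarith
    -- size of `a ^ n`
    have h4 : b ^ S.M (j + 1) / 3 ≤ a ^ n := by
      have h5 : a ^ S.N (j + 1) ≤ a ^ n := pow_le_pow_right₀ ha1.le hn1
      refine le_trans ?_ h5
      have h6 := (abs_le.1 (htj1 j)).1
      have h7 : a ^ S.N (j + 1) = b ^ S.M (j + 1) * Real.exp (L * (S.N (j + 1) * s - S.M (j + 1))) := by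
        rw [hpa, hpb, ← Real.exp_add]; congr 1; ring
      rw [h7]
      have h8 : (1 : ℝ) / 3 ≤ Real.exp (L * (S.N (j + 1) * s - S.M (j + 1))) := by
        calc (1 : ℝ) / 3 ≤ Real.exp (-1) := by
              rw [Real.exp_neg, one_div]
              apply inv_anti₀ (Real.exp_pos 1)
              have := Real.exp_one_lt_d9
              linarith
          _ ≤ _ := Real.exp_le_exp.2 h6
      calc b ^ S.M (j + 1) / 3 = b ^ S.M (j + 1) * (1 / 3) := by ring
        _ ≤ _ := by gcongr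
    rw [e, abs_mul, abs_of_pos (by positivity : 0 < a ^ n)]
    have h5 : c * γ (j + 1) ≤ (b ^ S.M (j + 1) / 3) * (L / (4 * S.N (j + 2))) := by
      -- `N γ ≤ C b ^ M`
      have h6 : (S.N (j + 1) : ℝ) * γ (j + 1) ≤ C * b ^ S.M (j + 1) := by
        have h7 : (γ (j + 1) : ℝ) ≤ S.N (j + 1) := by
          have h8 := (hγ (j + 1)).2
          have h9 := S.ge_self (j + 1)
          exact_mod_cast (by omega : γ (j + 1) ≤ S.N (j + 1))
        have h8 := hquad (j + 1)
        have h9 := S.npos (j + 1)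
        nlinarith
      have h7 := hNup j
      have h8 : 12 * (S.N (j + 2) : ℝ) * γ (j + 1) ≤ (24 * L + 12 * (4 + L) * C) * b ^ S.M (j + 1) := by
        have h9 : (S.N (j + 2) : ℝ) * γ (j + 1) ≤ 2 * b ^ (S.M (j + 1)) * L + (4 + L) * (S.N (j + 1) * γ (j + 1)) := by
          calc (S.N (j + 2) : ℝ) * γ (j + 1) ≤
                (2 * b ^ (S.M (j + 1)) * L / γ (j + 1) + (4 + L) * S.N (j + 1)) * γ (j + 1) := by gcongr
            _ = _ := by field_simp
        have h10 : (4 + L) * (S.N (j + 1) * γ (j + 1)) ≤ (4 + L) * (C * b ^ S.M (j + 1)) := by gcongr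
        linarith
      rw [show b ^ S.M (j + 1) / 3 * (L / (4 * S.N (j + 2))) = (b ^ S.M (j + 1) * L) / (12 * S.N (j + 2)) by
        rw [div_mul_div_comm]; congr 1; ring, hc, div_mul_eq_mul_div, div_le_div_iff₀ (by positivity) (by positivity)]
      calc L * γ (j + 1) * (12 * S.N (j + 2)) = L * (12 * (S.N (j + 2) : ℝ) * γ (j + 1)) := by ring
        _ ≤ L * ((24 * L + 12 * (4 + L) * C) * b ^ S.M (j + 1)) := by gcongr
        _ = _ := by ring
    refine h5.trans ?_
    apply mul_le_mul h4 h3 (by positivity) (by positivity)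
  have hfin : ∀ x : ℝ, {p : ℕ × ℕ | |a ^ p.1 - b ^ p.2| ≤ x}.Finite := by
    intro x
    obtain ⟨j0, hj0⟩ : ∃ j0, ∀ j, j0 ≤ j → x < c * γ (j + 1) := by
      have h1 : Tendsto (fun j => c * (γ (j + 1) : ℝ)) atTop atTop := by
        apply Tendsto.const_mul_atTop hc0
        exact (tendsto_natCast_atTop_atTop.comp hγt).comp (tendsto_add_atTop_nat 1)
      obtain ⟨j0, h2⟩ := (h1.eventually_gt_atTop x).exists_forall_of_atTop
      exact ⟨j0, h2⟩
    obtain ⟨K, hK⟩ := pow_unbounded_of_one_lt (a ^ S.N (j0 + 1) + x) hb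
    refine ((Set.finite_Iic (S.N (j0 + 1))).prod (Set.finite_Iic K)).subset ?_
    rintro ⟨n, m⟩ hp
    have hp' : |a ^ n - b ^ m| ≤ x := hp
    have hn : n < S.N (j0 + 1) := by
      by_contra hcon
      have hcon := not_lt.1 hcon
      -- find the block of `n`
      obtain ⟨j, hj, hj1, hj2⟩ : ∃ j, j0 ≤ j ∧ S.N (j + 1) ≤ n ∧ n < S.N (j + 2) := by
        have hex : ∃ i, n < S.N (j0 + i + 2) := by
          refine ⟨n, ?_⟩
          have := S.ge_self (j0 + n + 2)
          omega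
        classical
        set i := Nat.find hex with hi
        have h1 := Nat.find_spec hex
        rw [← hi] at h1
        refine ⟨j0 + i, by omega, ?_, h1⟩
        rcases Nat.eq_zero_or_pos i with h0 | h0
        · rw [h0]; exact hcon
        · have h2 := Nat.find_min hex (m := i - 1) (by omega)
          have h3 : j0 + (i - 1) + 2 = j0 + i + 1 := by omega
          rw [h3] at h2
          exact not_lt.1 h2
      have h1 := hlow j n m hj1 hj2
      have h2 := hj0 j hj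
      linarith
    refine ⟨hn.le, ?_⟩
    rw [mem_Iic]
    by_contra hm
    have h4 : b ^ K ≤ b ^ m := pow_le_pow_right₀ hb.le (by omega)
    have h5 : a ^ n ≤ a ^ S.N (j0 + 1) := pow_le_pow_right₀ ha1.le hn.le
    have h6 := (abs_le.1 hp').1
    linarith
  refine ⟨a, ha1, hanear, hfin, ?_⟩
  intro k hk
  -- the pairs
  have hinj : ∀ i j : ℕ, (S.N i, S.M i) = (S.N j, S.M j) → i = j := by
    intro i j h
    exact S.strictMono.injective (Prod.ext_iff.1 h).1
  have hcop : ∀ j, (S.N j).Coprime (S.M j) := by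
    intro j
    rw [← Nat.isCoprime_iff_coprime]
    have h1 := S.uni_all j
    refine ⟨(-1) ^ j * S.M (j + 1), -((-1) ^ j * S.N (j + 1)), ?_⟩
    have h2 : ((-1 : ℤ) ^ j) * (-1) ^ j = 1 := by rw [← pow_add, ← two_mul, pow_mul]; norm_num
    linear_combination ((-1 : ℤ) ^ j) * h1 + h2
  have hsubset : ((Finset.Ico 1 (Φ k)).image fun j => (S.N j, S.M j) : Set (ℕ × ℕ)) ⊆
      {p : ℕ × ℕ | p.1.Coprime p.2 ∧ |a ^ p.1 - b ^ p.2| ≤ k} := by
    intro p hp
    simp only [Finset.coe_image, Set.mem_image, Finset.coe_Ico, Set.mem_Ico] at hp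
    obtain ⟨j, ⟨hj1, hj2⟩, rfl⟩ := hp
    refine ⟨hcop j, ?_⟩
    obtain ⟨i, rfl⟩ : ∃ i, j = i + 1 := ⟨j - 1, by omega⟩
    refine (hup i).trans ?_
    exact_mod_cast hγΦ k (i + 1) hk hj2
  have hfin' : {p : ℕ × ℕ | p.1.Coprime p.2 ∧ |a ^ p.1 - b ^ p.2| ≤ k}.Finite :=
    (hfin k).subset fun p hp => hp.2
  have h1 := Set.ncard_le_ncard hsubset hfin'
  rw [Set.ncard_coe_finset, Finset.card_image_of_injective _ (fun i j h => hinj i j h), Nat.card_Ico] at h1
  have h2 := hΦ k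
  omega

end Pool.Agent.HP42.NC
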